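import Pool.Agent.MP_44d275_an.Geom

/-!
# Part 4: a maximal separated net on the sphere, and the local counting bound
-/

set_option autoImplicit false

open Set Metric Bornology Function ComplexConjugate

namespace KallinCex

lemma H_conj (p x : V) : H x p = conj (H p x) := by simp [H]; ring

lemma norm_one_sub_H_comm (p x : V) : ‖1 - H x p‖ = ‖1 - H p x‖ := by
  rw [H_conj p x, ← Complex.norm_conj (1 - H p x)]
  simp

lemma one_sub_H_le (p q : V) (hp : ‖p‖ = 1) : ‖1 - H p q‖ ≤ ‖p - q‖ := by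
  have h : 1 - H p q = H p (p - q) := by
    rw [H_sub, H_self, hp]; simp
  rw [h]
  have := H_le p (p - q)
  rwa [hp, one_mul] at this

/-- separated finite subsets of the sphere -/
def Sep (β : ℝ) (F : Finset V) : Prop :=
  (∀ p ∈ F, ‖p‖ = 1) ∧ ∀ p ∈ F, ∀ q ∈ F, p ≠ q → β ≤ ‖1 - H p q‖

lemma exists_net (β : ℝ) (hβ : 0 < β) :
    ∃ F : Finset V, Sep β F ∧ ∀ x : V, ‖x‖ = 1 → ∃ p ∈ F, ‖1 - H p x‖ < β := by
  classical
  obtain ⟨t, -, htf, htc⟩ := (isCompact_sphere (0 : V) 1).finite_cover_balls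
    (show (0 : ℝ) < β / 2 by positivity)
  have hbound : ∀ F : Finset V, Sep β F → F.card ≤ htf.toFinset.card := by
    intro F hF
    have hch : ∀ p ∈ F, ∃ c ∈ htf.toFinset, p ∈ ball c (β / 2) := by
      intro p hp
      have := htc (show p ∈ sphere (0 : V) 1 by simpa using hF.1 p hp)
      simp only [mem_iUnion, exists_prop] at this
      obtain ⟨c, hc, hpc⟩ := this
      exact ⟨c, by simpa using hc, hpc⟩
    choose! g hg1 hg2 using hch
    apply Finset.card_le_card_of_injOn g (fun p hp => hg1 p hp)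
    intro p hp q hq hpq
    by_contra hne
    have h1 := hF.2 p hp q hq hne
    have h2 := one_sub_H_le p q (hF.1 p hp)
    have h3 := hg2 p hp
    have h4 := hg2 q hq
    rw [← hpq] at h4
    rw [mem_ball] at h3 h4
    have h5 : dist p q < β := by
      calc dist p q ≤ dist p (g p) + dist q (g p) := dist_triangle_right _ _ _
        _ < β / 2 + β / 2 := add_lt_add h3 h4
        _ = β := by ring
    rw [dist_eq_norm] at h5
    linarith
  set S : Set ℕ := {n | ∃ F : Finset V, Sep β F ∧ F.card = n} with hS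
  have hSne : S.Nonempty := ⟨0, ∅, ⟨by simp, by simp⟩, by simp⟩
  have hSb : BddAbove S := by
    refine ⟨htf.toFinset.card, ?_⟩
    rintro n ⟨F, hF, rfl⟩
    exact hbound F hF
  obtain ⟨F, hF, hFc⟩ := Nat.sSup_mem hSne hSb
  refine ⟨F, hF, ?_⟩
  intro x hx
  by_contra hcon
  push Not at hcon
  have hxF : x ∉ F := by
    intro h
    have := hcon x h
    rw [H_self, hx] at this
    simp at this
    linarith
  have hSep : Sep β (insert x F) := by
    refine ⟨?_, ?_⟩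
    · intro p hp
      rcases Finset.mem_insert.1 hp with rfl | hp
      · exact hx
      · exact hF.1 p hp
    · intro p hp q hq hpq
      rcases Finset.mem_insert.1 hp with hp1 | hp1 <;> rcases Finset.mem_insert.1 hq with hq1 | hq1
      · exact absurd (hp1.trans hq1.symm) hpq
      · rw [hp1, norm_one_sub_H_comm]; exact hcon q hq1
      · rw [hq1]; exact hcon p hp1
      · exact hF.2 p hp1 q hq1 hpq
  have h1 : F.card + 1 ∈ S := ⟨insert x F, hSep, Finset.card_insert_of_notMem hxF⟩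
  have h2 := le_csSup hSb h1
  rw [← hFc] at h2
  omega

lemma H_unitary (p q q' : V) (hp : ‖p‖ = 1) :
    H q q' = conj (H (perp p) q) * H (perp p) q' + conj (H p q) * H p q' := by
  have h1 : conj (p 0) * p 0 + conj (p 1) * p 1 = 1 := by
    have := H_self p; rw [hp] at this; simpa [H] using this
  simp only [H, perp_zero, perp_one, map_add, map_mul, map_neg, Complex.conj_conj]
  linear_combination (-(conj (q 0) * q' 0 + conj (q 1) * q' 1)) * h1

/-- real-variable estimate, part 1 -/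
lemma real_du (δ : ℝ) (h0 : 0 < δ) (h1 : δ ≤ 1 / 1000) (x y u t x' y' u' t' : ℝ)
    (hsq : x ^ 2 + y ^ 2 + (u ^ 2 + t ^ 2) = 1) (hsq' : x' ^ 2 + y' ^ 2 + (u' ^ 2 + t' ^ 2) = 1)
    (bx : |x| ≤ 6 * δ ^ 2) (by1 : |y| ≤ 6 * δ ^ 2) (bx' : |x'| ≤ 6 * δ ^ 2) (by1' : |y'| ≤ 6 * δ ^ 2)
    (bt : |t| ≤ 100 * δ ^ 3) (bt' : |t'| ≤ 100 * δ ^ 3) (bu1 : 1 / 2 ≤ u) (bu1' : 1 / 2 ≤ u')
    (hx : |x - x'| ≤ δ ^ 2 / 4096) (hy : |y - y'| ≤ δ ^ 2 / 4096) (ht : |t - t'| ≤ δ ^ 4 / 1024) :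
    |u - u'| ≤ δ ^ 4 / 100 := by
  have hδ2 : 0 < δ ^ 2 := by positivity
  have hδ3 : 0 < δ ^ 3 := by positivity
  have hδ4 : 0 < δ ^ 4 := by positivity
  have h3le : δ ^ 3 ≤ 1 / 1000000000 := by
    calc δ ^ 3 ≤ (1 / 1000) ^ 3 := pow_le_pow_left₀ h0.le h1 3
      _ = _ := by norm_num
  have e : (u - u') * (u + u') = (x' - x) * (x' + x) + (y' - y) * (y' + y)
      + (t' - t) * (t' + t) := by linear_combination hsq - hsq'
  have e1 : |(x' - x) * (x' + x)| ≤ δ ^ 2 / 4096 * (12 * δ ^ 2) := by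
    rw [abs_mul]
    apply mul_le_mul _ _ (abs_nonneg _) (by positivity)
    · rw [abs_sub_comm]; exact hx
    · exact (abs_add_le _ _).trans (by linarith)
  have e2 : |(y' - y) * (y' + y)| ≤ δ ^ 2 / 4096 * (12 * δ ^ 2) := by
    rw [abs_mul]
    apply mul_le_mul _ _ (abs_nonneg _) (by positivity)
    · rw [abs_sub_comm]; exact hy
    · exact (abs_add_le _ _).trans (by linarith)
  have e3 : |(t' - t) * (t' + t)| ≤ δ ^ 4 / 1024 * (200 * δ ^ 3) := by
    rw [abs_mul]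
    apply mul_le_mul _ _ (abs_nonneg _) (by positivity)
    · rw [abs_sub_comm]; exact ht
    · exact (abs_add_le _ _).trans (by linarith)
  have e4 : |u - u'| ≤ |(u - u') * (u + u')| := by
    rw [abs_mul]
    have : 1 ≤ |u + u'| := by rw [abs_of_nonneg (by linarith)]; linarith
    exact le_mul_of_one_le_right (abs_nonneg _) this
  have e5 : |(u - u') * (u + u')| ≤ δ ^ 2 / 4096 * (12 * δ ^ 2) + δ ^ 2 / 4096 * (12 * δ ^ 2)
      + δ ^ 4 / 1024 * (200 * δ ^ 3) := by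
    rw [e]
    exact (abs_add_le _ _).trans (add_le_add ((abs_add_le _ _).trans (add_le_add e1 e2)) e3)
  have e6 : δ ^ 4 / 1024 * (200 * δ ^ 3) ≤ δ ^ 4 / 1024 * (200 * (1 / 1000000000)) := by gcongr
  have e7 : δ ^ 2 / 4096 * (12 * δ ^ 2) = 12 / 4096 * δ ^ 4 := by ring
  rw [e7] at e5
  linarith

/-- real-variable estimate, part 2 -/
lemma real_re (δ : ℝ) (h0 : 0 < δ) (h1 : δ ≤ 1 / 1000) (x y u t x' y' u' t' : ℝ)
    (hsq : x ^ 2 + y ^ 2 + (u ^ 2 + t ^ 2) = 1) (hsq' : x' ^ 2 + y' ^ 2 + (u' ^ 2 + t' ^ 2) = 1)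
    (hdu : |u - u'| ≤ δ ^ 4 / 100)
    (hx : |x - x'| ≤ δ ^ 2 / 4096) (hy : |y - y'| ≤ δ ^ 2 / 4096) (ht : |t - t'| ≤ δ ^ 4 / 1024) :
    |1 - (x * x' + y * y' + (u * u' + t * t'))| ≤ δ ^ 4 / 10000 := by
  have hδ4 : 0 < δ ^ 4 := by positivity
  have h4le : δ ^ 4 ≤ 1 / 1000000000000 := by
    calc δ ^ 4 ≤ (1 / 1000) ^ 4 := pow_le_pow_left₀ h0.le h1 4
      _ = _ := by norm_num
  have e : 1 - (x * x' + y * y' + (u * u' + t * t'))
      = ((x - x') ^ 2 + (y - y') ^ 2 + (u - u') ^ 2 + (t - t') ^ 2) / 2 := by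
    linear_combination (-1 / 2) * hsq + (-1 / 2) * hsq'
  have f1 : (x - x') ^ 2 ≤ (δ ^ 2 / 4096) ^ 2 :=
    sq_le_sq' (by linarith [(abs_le.1 hx).1]) (abs_le.1 hx).2
  have f2 : (y - y') ^ 2 ≤ (δ ^ 2 / 4096) ^ 2 :=
    sq_le_sq' (by linarith [(abs_le.1 hy).1]) (abs_le.1 hy).2
  have f3 : (t - t') ^ 2 ≤ (δ ^ 4 / 1024) ^ 2 :=
    sq_le_sq' (by linarith [(abs_le.1 ht).1]) (abs_le.1 ht).2
  have f4 : (u - u') ^ 2 ≤ (δ ^ 4 / 100) ^ 2 :=
    sq_le_sq' (by linarith [(abs_le.1 hdu).1]) (abs_le.1 hdu).2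
  have f5 : (δ ^ 2 / 4096) ^ 2 = δ ^ 4 / 16777216 := by ring
  have f7 : (δ ^ 4 / 100) ^ 2 ≤ δ ^ 4 / 100 * (1 / 1000000000000) := by
    rw [sq]; exact mul_le_mul_of_nonneg_left (by linarith) (by positivity)
  have f8 : (δ ^ 4 / 1024) ^ 2 ≤ δ ^ 4 / 1024 * (1 / 1000000000000) := by
    rw [sq]; exact mul_le_mul_of_nonneg_left (by linarith) (by positivity)
  rw [e, abs_of_nonneg (by positivity)]
  linarith

/-- real-variable estimate, part 3 -/
lemma real_im (δ : ℝ) (h0 : 0 < δ) (h1 : δ ≤ 1 / 1000) (x y u t x' y' u' t' : ℝ)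
    (bx : |x| ≤ 6 * δ ^ 2) (by1 : |y| ≤ 6 * δ ^ 2)
    (bt : |t| ≤ 100 * δ ^ 3) (bu : |u| ≤ 1)
    (hdu : |u - u'| ≤ δ ^ 4 / 100)
    (hx : |x - x'| ≤ δ ^ 2 / 4096) (hy : |y - y'| ≤ δ ^ 2 / 4096) (ht : |t - t'| ≤ δ ^ 4 / 1024) :
    |x * y' - y * x' + (u * t' - t * u')| ≤ δ ^ 4 / 200 := by
  have hδ4 : 0 < δ ^ 4 := by positivity
  have h3le : δ ^ 3 ≤ 1 / 1000000000 := by
    calc δ ^ 3 ≤ (1 / 1000) ^ 3 := pow_le_pow_left₀ h0.le h1 3
      _ = _ := by norm_num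
  have e : x * y' - y * x' + (u * t' - t * u')
      = (x * (y' - y) - y * (x' - x)) + (u * (t' - t) - t * (u' - u)) := by ring
  have g1 : |x * (y' - y)| ≤ 6 * δ ^ 2 * (δ ^ 2 / 4096) := by
    rw [abs_mul]
    apply mul_le_mul bx _ (abs_nonneg _) (by positivity)
    rw [abs_sub_comm]; exact hy
  have g2 : |y * (x' - x)| ≤ 6 * δ ^ 2 * (δ ^ 2 / 4096) := by
    rw [abs_mul]
    apply mul_le_mul by1 _ (abs_nonneg _) (by positivity)
    rw [abs_sub_comm]; exact hx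
  have g3 : |u * (t' - t)| ≤ 1 * (δ ^ 4 / 1024) := by
    rw [abs_mul]
    apply mul_le_mul bu _ (abs_nonneg _) (by positivity)
    rw [abs_sub_comm]; exact ht
  have g4 : |t * (u' - u)| ≤ 100 * δ ^ 3 * (δ ^ 4 / 100) := by
    rw [abs_mul]
    apply mul_le_mul bt _ (abs_nonneg _) (by positivity)
    rw [abs_sub_comm]; exact hdu
  have g5 : 100 * δ ^ 3 * (δ ^ 4 / 100) ≤ 100 * (1 / 1000000000) * (δ ^ 4 / 100) := by gcongr
  rw [e]
  have k1 := abs_le.1 g1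
  have k2 := abs_le.1 g2
  have k3 := abs_le.1 g3
  have k4 := abs_le.1 g4
  have k5 : 6 * δ ^ 2 * (δ ^ 2 / 4096) = 6 / 4096 * δ ^ 4 := by ring
  rw [k5] at k1 k2
  rw [abs_le]
  constructor <;> linarith

/-- two unit vectors near `p` with nearly equal coordinates are close. -/
lemma close_of_cell (δ : ℝ) (h0 : 0 < δ) (h1 : δ ≤ 1 / 1000) (p q q' : V) (hp : ‖p‖ = 1)
    (hq : ‖q‖ = 1) (hq' : ‖q'‖ = 1) (hz : ‖H (perp p) q‖ ≤ 6 * δ ^ 2)
    (hz' : ‖H (perp p) q'‖ ≤ 6 * δ ^ 2)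
    (hw : ‖1 - H p q‖ ≤ 100 * δ ^ 3) (hw' : ‖1 - H p q'‖ ≤ 100 * δ ^ 3)
    (hx : |(H (perp p) q).re - (H (perp p) q').re| ≤ δ ^ 2 / 4096)
    (hy : |(H (perp p) q).im - (H (perp p) q').im| ≤ δ ^ 2 / 4096)
    (ht : |(H p q).im - (H p q').im| ≤ δ ^ 4 / 1024) :
    ‖1 - H q q'‖ < δ ^ 4 / 128 := by
  have hδ4 : 0 < δ ^ 4 := by positivity
  have h3le : δ ^ 3 ≤ 1 / 1000000000 := by
    calc δ ^ 3 ≤ (1 / 1000) ^ 3 := pow_le_pow_left₀ h0.le h1 3
      _ = _ := by norm_num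
  have hsq : ‖H (perp p) q‖ ^ 2 + ‖H p q‖ ^ 2 = 1 := by
    have := lagrange p q; rw [hp, hq] at this; simpa using this
  have hsq' : ‖H (perp p) q'‖ ^ 2 + ‖H p q'‖ ^ 2 = 1 := by
    have := lagrange p q'; rw [hp, hq'] at this; simpa using this
  rw [nsqC, nsqC] at hsq hsq'
  have hu := H_unitary p q q' hp
  generalize H (perp p) q = z at *
  generalize H (perp p) q' = z' at *
  generalize H p q = w at *
  generalize H p q' = w' at *
  -- size bounds
  have bx : |z.re| ≤ 6 * δ ^ 2 := (Complex.abs_re_le_norm _).trans hz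
  have by1 : |z.im| ≤ 6 * δ ^ 2 := (Complex.abs_im_le_norm _).trans hz
  have bx' : |z'.re| ≤ 6 * δ ^ 2 := (Complex.abs_re_le_norm _).trans hz'
  have by1' : |z'.im| ≤ 6 * δ ^ 2 := (Complex.abs_im_le_norm _).trans hz'
  have bt : |w.im| ≤ 100 * δ ^ 3 := by
    have := (Complex.abs_im_le_norm (1 - w)).trans hw
    simpa using this
  have bt' : |w'.im| ≤ 100 * δ ^ 3 := by
    have := (Complex.abs_im_le_norm (1 - w')).trans hw'
    simpa using this
  have bu : |1 - w.re| ≤ 100 * δ ^ 3 := by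
    have := (Complex.abs_re_le_norm (1 - w)).trans hw
    simpa using this
  have bu' : |1 - w'.re| ≤ 100 * δ ^ 3 := by
    have := (Complex.abs_re_le_norm (1 - w')).trans hw'
    simpa using this
  have bu1 : 1 / 2 ≤ w.re := by have := abs_le.1 bu; linarith [this.2]
  have bu1' : 1 / 2 ≤ w'.re := by have := abs_le.1 bu'; linarith [this.2]
  have bu2 : |w.re| ≤ 1 := by
    rw [abs_le_one_iff_mul_self_le_one]
    have := sq_nonneg z.re; have := sq_nonneg z.im; have := sq_nonneg w.im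
    linarith
  have hdu := real_du δ h0 h1 _ _ _ _ _ _ _ _ hsq hsq' bx by1 bx' by1' bt bt' bu1 bu1' hx hy ht
  have hre := real_re δ h0 h1 _ _ _ _ _ _ _ _ hsq hsq' hdu hx hy ht
  have him := real_im δ h0 h1 _ _ _ _ _ _ _ _ bx by1 bt bu2 hdu hx hy ht
  have e1 : (1 - H q q').re = 1 - (z.re * z'.re + z.im * z'.im + (w.re * w'.re + w.im * w'.im)) := by
    rw [hu]; simp [Complex.mul_re]
  have e2 : (1 - H q q').im
      = -(z.re * z'.im - z.im * z'.re + (w.re * w'.im - w.im * w'.re)) := by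
    rw [hu]; simp [Complex.mul_im]; ring
  rw [← e1] at hre
  rw [← abs_neg, ← e2] at him
  calc ‖1 - H q q'‖ ≤ |(1 - H q q').re| + |(1 - H q q').im| := Complex.norm_le_abs_re_add_abs_im _
    _ ≤ δ ^ 4 / 10000 + δ ^ 4 / 200 := add_le_add hre him
    _ < δ ^ 4 / 128 := by linarith

end KallinCex
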