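import Pool.Agent.MP_44d275_an.Patch
import Pool.Agent.MP_44d275_an.Net

/-!
# Part 5: local counting bound and greedy placement
-/

set_option autoImplicit false

open Set Metric Bornology Function ComplexConjugate

namespace KallinCex

lemma floor_eq_abs (a b s : ℝ) (hs : 0 < s) (h : ⌊a / s⌋ = ⌊b / s⌋) : |a - b| ≤ s := by
  have h1 := Int.abs_sub_lt_one_of_floor_eq_floor h
  rw [← sub_div, abs_div, abs_of_pos hs, div_lt_one hs] at h1
  exact h1.le

lemma floor_mem (a s : ℝ) (n : ℤ) (hs : 0 < s) (h : |a| ≤ n * s) :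
    ⌊a / s⌋ ∈ Finset.Icc (-n) n := by
  have h1 := abs_le.1 h
  rw [Finset.mem_Icc]
  constructor
  · rw [Int.le_floor, le_div_iff₀ hs]
    push_cast
    linarith [h1.1]
  · have : (⌊a / s⌋ : ℝ) ≤ n := by
      refine (Int.floor_le _).trans ?_
      rw [div_le_iff₀ hs]
      exact h1.2
    exact_mod_cast this

lemma count_bound (D : ℕ) (hD : 1000 ≤ D) (δ : ℝ) (hδ : δ = 1 / D) (F : Finset V)
    (hF : Sep (δ ^ 4 / 128) F) (p : V) (hp : ‖p‖ = 1) (G : Finset V) (hGF : G ⊆ F)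
    (hG1 : ∀ q ∈ G, ‖H (perp p) q‖ ≤ 6 * δ ^ 2) (hG2 : ∀ q ∈ G, ‖1 - H p q‖ ≤ 100 * δ ^ 3) :
    G.card ≤ 49153 * (49153 * (204800 * D + 1)) := by
  classical
  have hDr : (1000 : ℝ) ≤ D := by exact_mod_cast hD
  have hDpos : (0 : ℝ) < D := by linarith
  have h0 : 0 < δ := by rw [hδ]; positivity
  have h1 : δ ≤ 1 / 1000 := by
    rw [hδ]; exact one_div_le_one_div_of_le (by norm_num) hDr
  have hδD : δ * D = 1 := by rw [hδ]; field_simp
  set s : ℝ := δ ^ 2 / 4096 with hs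
  set t : ℝ := δ ^ 4 / 1024 with ht
  have hspos : 0 < s := by positivity
  have htpos : 0 < t := by positivity
  let g : V → ℤ × (ℤ × ℤ) := fun q =>
    (⌊(H (perp p) q).re / s⌋, (⌊(H (perp p) q).im / s⌋, ⌊(H p q).im / t⌋))
  have hcard : (Finset.Icc (-24576 : ℤ) 24576 ×ˢ (Finset.Icc (-24576 : ℤ) 24576 ×ˢ
      Finset.Icc (-((102400 * D : ℕ) : ℤ)) ((102400 * D : ℕ) : ℤ))).card
      = 49153 * (49153 * (204800 * D + 1)) := by
    rw [Finset.card_product, Finset.card_product, Int.card_Icc, Int.card_Icc]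
    have e1 : ((24576 : ℤ) + 1 - -24576).toNat = 49153 := by omega
    have e2 : (((102400 * D : ℕ) : ℤ) + 1 - -((102400 * D : ℕ) : ℤ)).toNat = 204800 * D + 1 := by
      omega
    rw [e1, e2]
  rw [← hcard]
  apply Finset.card_le_card_of_injOn g
  · intro q hq
    have hq' : q ∈ G := hq
    have b1 := hG1 q hq'
    have b2 := hG2 q hq'
    have c1 : |(H (perp p) q).re| ≤ 6 * δ ^ 2 := (Complex.abs_re_le_norm _).trans b1
    have c2 : |(H (perp p) q).im| ≤ 6 * δ ^ 2 := (Complex.abs_im_le_norm _).trans b1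
    have c3 : |(H p q).im| ≤ 100 * δ ^ 3 := by
      have := (Complex.abs_im_le_norm (1 - H p q)).trans b2
      simpa using this
    have e1 : ((24576 : ℤ) : ℝ) * s = 6 * δ ^ 2 := by rw [hs]; push_cast; ring
    have e2 : (((102400 * D : ℕ) : ℤ) : ℝ) * t = 100 * δ ^ 3 := by
      rw [ht]; push_cast
      have : 102400 * (D : ℝ) * (δ ^ 4 / 1024) = 100 * δ ^ 3 * (δ * D) := by ring
      rw [this, hδD, mul_one]
    have m1 := floor_mem _ s 24576 hspos (c1.trans e1.ge)
    have m2 := floor_mem _ s 24576 hspos (c2.trans e1.ge)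
    have m3 := floor_mem _ t _ htpos (c3.trans e2.ge)
    rw [Finset.mem_coe, Finset.mem_product, Finset.mem_product]
    exact ⟨m1, m2, m3⟩
  · intro q hq q' hq' hqq
    by_contra hne
    have hqG : q ∈ G := hq
    have hqG' : q' ∈ G := hq'
    simp only [g, Prod.mk.injEq] at hqq
    obtain ⟨r1, r2, r3⟩ := hqq
    have k1 := floor_eq_abs _ _ s hspos r1
    have k2 := floor_eq_abs _ _ s hspos r2
    have k3 := floor_eq_abs _ _ t htpos r3
    have := close_of_cell δ h0 h1 p q q' hp (hF.1 q (hGF hqG)) (hF.1 q' (hGF hqG'))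
      (hG1 q hqG) (hG1 q' hqG') (hG2 q hqG) (hG2 q' hqG') k1 k2 k3
    have h2 := hF.2 q (hGF hqG) q' (hGF hqG') hne
    linarith

lemma conflict (δ : ℝ) (h0 : 0 < δ) (h1 : δ ≤ 1 / 1000) (p q : V) (hp : ‖p‖ = 1) (hq : ‖q‖ = 1)
    (a b : ℂ) (ha : ‖a‖ ≤ 2 * δ ^ 2) (hb : ‖b‖ ≤ 2 * δ ^ 2)
    (h : ‖cen δ p a - cen δ q b‖ ≤ 66 * δ ^ 3) :
    ‖H (perp p) q‖ ≤ 6 * δ ^ 2 ∧ ‖1 - H p q‖ ≤ 100 * δ ^ 3 := by
  have hδ2 : 0 < δ ^ 2 := by positivity
  have hδ3 : 0 < δ ^ 3 := by positivity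
  have hδ4 : 0 < δ ^ 4 := by positivity
  have h4le : δ ^ 4 ≤ 1 / 1000000000000 := by
    calc δ ^ 4 ≤ (1 / 1000) ^ 4 := pow_le_pow_left₀ h0.le h1 4
      _ = _ := by norm_num
  have h43 : δ ^ 4 ≤ δ ^ 3 / 1000 := by nlinarith
  have h32 : δ ^ 3 ≤ δ ^ 2 / 1000 := by nlinarith
  have hc : (1 : ℝ) / 2 ≤ 1 - 256 * δ ^ 4 := by linarith
  have hc9 : (9 : ℝ) / 10 ≤ 1 - 256 * δ ^ 4 := by linarith
  -- the distance between the net points
  have e1 : ((1 - 256 * δ ^ 4 : ℝ) : ℂ) • (p - q)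
      = (cen δ p a - cen δ q b) - a • perp p + b • perp q := by
    simp only [cen, smul_sub]; abel
  have e2 : (1 - 256 * δ ^ 4) * ‖p - q‖ ≤ 66 * δ ^ 3 + 2 * δ ^ 2 + 2 * δ ^ 2 := by
    have : ‖((1 - 256 * δ ^ 4 : ℝ) : ℂ) • (p - q)‖ = (1 - 256 * δ ^ 4) * ‖p - q‖ := by
      rw [norm_smul, Complex.norm_real, Real.norm_of_nonneg (by linarith)]
    rw [← this, e1]
    calc ‖(cen δ p a - cen δ q b) - a • perp p + b • perp q‖
        ≤ ‖(cen δ p a - cen δ q b) - a • perp p‖ + ‖b • perp q‖ := norm_add_le _ _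
      _ ≤ (‖cen δ p a - cen δ q b‖ + ‖a • perp p‖) + ‖b • perp q‖ := by
          gcongr; exact norm_sub_le _ _
      _ ≤ 66 * δ ^ 3 + 2 * δ ^ 2 + 2 * δ ^ 2 := by
          rw [norm_smul, norm_smul, norm_perp, norm_perp, hp, hq, mul_one, mul_one]
          linarith
  have e3 : ‖p - q‖ ≤ 6 * δ ^ 2 := by
    have := mul_le_mul_of_nonneg_right hc9 (norm_nonneg (p - q))
    linarith
  have e4 : ‖H (perp p) q‖ ≤ ‖p - q‖ := by
    have : H (perp p) q = - H (perp p) (p - q) := by rw [H_sub, H_perp_self]; ring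
    rw [this, norm_neg]
    have := H_le (perp p) (p - q)
    rwa [norm_perp, hp, one_mul] at this
  have e5 : ‖H p (perp q)‖ ≤ ‖p - q‖ := by
    have : H p (perp q) = H (p - q) (perp q) := by rw [H_sub_left, H_self_perp]; ring
    rw [this]
    have := H_le (p - q) (perp q)
    rwa [norm_perp, hq, mul_one] at this
  have e6 : ((1 - 256 * δ ^ 4 : ℝ) : ℂ) * (1 - H p q)
      = H p (cen δ p a - cen δ q b) + b * H p (perp q) := by
    rw [H_sub]
    simp only [cen, H_add, H_smul, H_self_perp, H_self, hp]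
    push_cast
    ring
  have e7 : (1 - 256 * δ ^ 4) * ‖1 - H p q‖ ≤ 66 * δ ^ 3 + 2 * δ ^ 2 * (6 * δ ^ 2) := by
    have : ‖((1 - 256 * δ ^ 4 : ℝ) : ℂ) * (1 - H p q)‖ = (1 - 256 * δ ^ 4) * ‖1 - H p q‖ := by
      rw [norm_mul, Complex.norm_real, Real.norm_of_nonneg (by linarith)]
    rw [← this, e6]
    calc ‖H p (cen δ p a - cen δ q b) + b * H p (perp q)‖
        ≤ ‖H p (cen δ p a - cen δ q b)‖ + ‖b * H p (perp q)‖ := norm_add_le _ _
      _ ≤ 66 * δ ^ 3 + 2 * δ ^ 2 * (6 * δ ^ 2) := by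
          apply add_le_add
          · have := H_le p (cen δ p a - cen δ q b)
            rw [hp, one_mul] at this
            exact this.trans h
          · rw [norm_mul]
            exact mul_le_mul hb (e5.trans e3) (norm_nonneg _) (by positivity)
  refine ⟨e4.trans e3, ?_⟩
  have e8 : 2 * δ ^ 2 * (6 * δ ^ 2) = 12 * δ ^ 4 := by ring
  rw [e8] at e7
  have := mul_le_mul_of_nonneg_right hc9 (norm_nonneg (1 - H p q))
  linarith

/-- the candidate poles -/
noncomputable def cand (δ : ℝ) (kl : ℕ × ℕ) : ℂ :=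
  ⟨δ ^ 2 + 133 * δ ^ 3 * kl.1, 133 * δ ^ 3 * kl.2⟩

lemma cand_sep (δ : ℝ) (h0 : 0 < δ) (x y : ℕ × ℕ) (h : ‖cand δ x - cand δ y‖ ≤ 132 * δ ^ 3) :
    x = y := by
  have hδ3 : 0 < δ ^ 3 := by positivity
  have key : ∀ m n : ℕ, |133 * δ ^ 3 * (m : ℝ) - 133 * δ ^ 3 * (n : ℝ)| ≤ 132 * δ ^ 3 → m = n := by
    intro m n hmn
    rw [← mul_sub, abs_mul, abs_of_pos (by positivity)] at hmn
    have : |(m : ℝ) - n| < 1 := by
      by_contra hc
      push Not at hc
      have := mul_le_mul_of_nonneg_left hc (show 0 ≤ 133 * δ ^ 3 by positivity)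
      linarith
    have h2 : |(m : ℤ) - n| < 1 := by exact_mod_cast this
    have h3 := Int.abs_lt_one_iff.1 h2
    omega
  have hre := (Complex.abs_re_le_norm (cand δ x - cand δ y)).trans h
  have him := (Complex.abs_im_le_norm (cand δ x - cand δ y)).trans h
  rw [Complex.sub_re] at hre
  rw [Complex.sub_im] at him
  simp only [cand] at hre him
  rw [add_sub_add_left_eq_sub] at hre
  exact Prod.ext (key _ _ hre) (key _ _ him)

lemma cand_bound (δ : ℝ) (h0 : 0 < δ) (n : ℕ) (hn : 266 * n * δ ≤ 1) (x : ℕ × ℕ)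
    (hx1 : x.1 < n) (hx2 : x.2 < n) : δ ^ 2 ≤ ‖cand δ x‖ ∧ ‖cand δ x‖ ≤ 2 * δ ^ 2 := by
  have hδ2 : 0 < δ ^ 2 := by positivity
  have hδ3 : 0 < δ ^ 3 := by positivity
  have h1 : (x.1 : ℝ) ≤ n := by exact_mod_cast hx1.le
  have h2 : (x.2 : ℝ) ≤ n := by exact_mod_cast hx2.le
  constructor
  · refine le_trans ?_ ((le_abs_self _).trans (Complex.abs_re_le_norm (cand δ x)))
    simp only [cand]
    have : 0 ≤ 133 * δ ^ 3 * (x.1 : ℝ) := by positivity
    linarith
  · refine (Complex.norm_le_abs_re_add_abs_im _).trans ?_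
    simp only [cand]
    rw [abs_of_nonneg (by positivity), abs_of_nonneg (by positivity)]
    have e1 : 133 * δ ^ 3 * (x.1 : ℝ) ≤ 133 * δ ^ 3 * n := by gcongr
    have e2 : 133 * δ ^ 3 * (x.2 : ℝ) ≤ 133 * δ ^ 3 * n := by gcongr
    have e3 : δ ^ 2 * (266 * n * δ) ≤ δ ^ 2 * 1 := by gcongr
    linarith

lemma exists_params : ∃ D n : ℕ, 1000 ≤ D ∧ 266 * n ≤ D ∧
    49153 * (49153 * (204800 * D + 1)) < n * n :=
  ⟨266 * 10 ^ 18, 10 ^ 18, by norm_num, by norm_num, by norm_num⟩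

theorem greedy (D n : ℕ) (hD : 1000 ≤ D) (hnD : 266 * n ≤ D)
    (hn : 49153 * (49153 * (204800 * D + 1)) < n * n) (δ : ℝ) (hδ : δ = 1 / D)
    (F : Finset V) (hF : Sep (δ ^ 4 / 128) F) (G : Finset V) : G ⊆ F →
    ∃ a : V → ℂ, (∀ p ∈ G, δ ^ 2 ≤ ‖a p‖ ∧ ‖a p‖ ≤ 2 * δ ^ 2) ∧
      ∀ p ∈ G, ∀ q ∈ G, p ≠ q → 66 * δ ^ 3 < ‖cen δ p (a p) - cen δ q (a q)‖ := by
  classical
  have hDr : (1000 : ℝ) ≤ D := by exact_mod_cast hD
  have hDpos : (0 : ℝ) < D := by linarith
  have h0 : 0 < δ := by rw [hδ]; positivity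
  have h1 : δ ≤ 1 / 1000 := by
    rw [hδ]; exact one_div_le_one_div_of_le (by norm_num) hDr
  have hnδ : 266 * (n : ℝ) * δ ≤ 1 := by
    have : 266 * (n : ℝ) ≤ D := by exact_mod_cast hnD
    rw [hδ, mul_one_div, div_le_one hDpos]
    exact this
  induction G using Finset.induction_on with
  | empty => intro _; exact ⟨fun _ => 0, by simp, by simp⟩
  | insert p G hpG ih =>
    intro hsub
    have hpF : p ∈ F := hsub (Finset.mem_insert_self p G)
    have hGF : G ⊆ F := (Finset.subset_insert p G).trans hsub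
    have hp1 : ‖p‖ = 1 := hF.1 p hpF
    obtain ⟨a, ha1, ha2⟩ := ih hGF
    set N : Finset V := G.filter (fun q => ‖H (perp p) q‖ ≤ 6 * δ ^ 2 ∧ ‖1 - H p q‖ ≤ 100 * δ ^ 3)
      with hN
    have hNcard : N.card ≤ 49153 * (49153 * (204800 * D + 1)) := by
      apply count_bound D hD δ hδ F hF p hp1 N ((Finset.filter_subset _ _).trans hGF)
      · intro q hq; exact (Finset.mem_filter.1 hq).2.1
      · intro q hq; exact (Finset.mem_filter.1 hq).2.2
    have hex : ∃ x ∈ Finset.range n ×ˢ Finset.range n, ∀ q ∈ G,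
        66 * δ ^ 3 < ‖cen δ p (cand δ x) - cen δ q (a q)‖ := by
      by_contra hcon
      push Not at hcon
      choose! g hg1 hg2 using hcon
      have hinj : (Finset.range n ×ˢ Finset.range n).card ≤ N.card := by
        apply Finset.card_le_card_of_injOn g
        · intro x hx
          have hx' := Finset.mem_product.1 (Finset.mem_coe.1 hx)
          have hb := cand_bound δ h0 n hnδ x (Finset.mem_range.1 hx'.1) (Finset.mem_range.1 hx'.2)
          have hgx := hg1 x (Finset.mem_coe.1 hx)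
          have := conflict δ h0 h1 p (g x) hp1 (hF.1 _ (hGF hgx)) _ _ hb.2 (ha1 _ hgx).2
            (hg2 x (Finset.mem_coe.1 hx))
          exact Finset.mem_coe.2 (Finset.mem_filter.2 ⟨hgx, this⟩)
        · intro x hx y hy hxy
          have k1 := hg2 x (Finset.mem_coe.1 hx)
          have k2 := hg2 y (Finset.mem_coe.1 hy)
          rw [← hxy] at k2
          apply cand_sep δ h0
          have e : cen δ p (cand δ x) - cen δ p (cand δ y) = (cand δ x - cand δ y) • perp p := by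
            simp only [cen, sub_smul]; abel
          have e2 : ‖cand δ x - cand δ y‖ = ‖cen δ p (cand δ x) - cen δ p (cand δ y)‖ := by
            rw [e, norm_smul, norm_perp, hp1, mul_one]
          rw [e2]
          calc ‖cen δ p (cand δ x) - cen δ p (cand δ y)‖
              = ‖(cen δ p (cand δ x) - cen δ (g x) (a (g x)))
                - (cen δ p (cand δ y) - cen δ (g x) (a (g x)))‖ := by congr 1; abel
            _ ≤ _ + _ := norm_sub_le _ _
            _ ≤ 66 * δ ^ 3 + 66 * δ ^ 3 := add_le_add k1 k2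
            _ = 132 * δ ^ 3 := by ring
      rw [Finset.card_product, Finset.card_range] at hinj
      omega
    obtain ⟨x, hx, hxG⟩ := hex
    have hx' := Finset.mem_product.1 hx
    have hb := cand_bound δ h0 n hnδ x (Finset.mem_range.1 hx'.1) (Finset.mem_range.1 hx'.2)
    refine ⟨Function.update a p (cand δ x), ?_, ?_⟩
    · intro q hq
      rcases Finset.mem_insert.1 hq with rfl | hq
      · simpa using hb
      · have : q ≠ p := fun h => hpG (h ▸ hq)
        rw [Function.update_of_ne this]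
        exact ha1 q hq
    · intro q hq q' hq' hne
      rcases Finset.mem_insert.1 hq with h | h <;> rcases Finset.mem_insert.1 hq' with h' | h'
      · exact absurd (h.trans h'.symm) hne
      · have hq'p : q' ≠ p := fun hh => hpG (hh ▸ h')
        rw [h, Function.update_self, Function.update_of_ne hq'p]
        exact hxG q' h'
      · have hqp : q ≠ p := fun hh => hpG (hh ▸ h)
        rw [h', Function.update_self, Function.update_of_ne hqp, norm_sub_rev]
        exact hxG q h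
      · have hqp : q ≠ p := fun hh => hpG (hh ▸ h)
        have hq'p : q' ≠ p := fun hh => hpG (hh ▸ h')
        rw [Function.update_of_ne hq'p, Function.update_of_ne hqp]
        exact ha2 q h q' h' hne

end KallinCex
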