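import Pool.Agent.MP_44d275_an.MaxPrinciple

/-!
# Part 2: elementary geometry of `ℂ²`
-/

set_option autoImplicit false

open Set Metric Bornology Function ComplexConjugate

namespace KallinCex

/-- the Hermitian product `⟨x, p⟩`, linear in `x`. -/
noncomputable def H (p x : V) : ℂ := conj (p 0) * x 0 + conj (p 1) * x 1

/-- the vector orthogonal to `p`. -/
noncomputable def perp (p : V) : V := !₂[-conj (p 1), conj (p 0)]

@[simp] lemma perp_zero (p : V) : perp p 0 = -conj (p 1) := by simp [perp]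
@[simp] lemma perp_one (p : V) : perp p 1 = conj (p 0) := by simp [perp]

lemma H_add (p x y : V) : H p (x + y) = H p x + H p y := by simp [H]; ring
lemma H_sub (p x y : V) : H p (x - y) = H p x - H p y := by simp [H]; ring
lemma H_smul (p : V) (c : ℂ) (x : V) : H p (c • x) = c * H p x := by simp [H]; ring
lemma H_sub_left (p q x : V) : H (p - q) x = H p x - H q x := by simp [H]; ring

lemma nsq (x : V) : ‖x‖ ^ 2 = (x 0).re ^ 2 + (x 0).im ^ 2 + ((x 1).re ^ 2 + (x 1).im ^ 2) := by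
  rw [EuclideanSpace.norm_sq_eq, Fin.sum_univ_two, Complex.sq_norm, Complex.sq_norm,
    Complex.normSq_apply, Complex.normSq_apply]
  ring

lemma nsqC (z : ℂ) : ‖z‖ ^ 2 = z.re ^ 2 + z.im ^ 2 := by
  rw [Complex.sq_norm, Complex.normSq_apply]; ring

lemma H_self (p : V) : H p p = ((‖p‖ ^ 2 : ℝ) : ℂ) := by
  rw [nsq]; apply Complex.ext
  · rw [Complex.ofReal_re]; simp [H, Complex.mul_re]; ring
  · rw [Complex.ofReal_im]; simp [H, Complex.mul_im]; ring

lemma H_self_perp (p : V) : H p (perp p) = 0 := by simp [H]; ring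
lemma H_perp_self (p : V) : H (perp p) p = 0 := by simp [H]; ring
lemma H_perp_perp (p : V) : H (perp p) (perp p) = ((‖p‖ ^ 2 : ℝ) : ℂ) := by
  rw [nsq]; apply Complex.ext
  · rw [Complex.ofReal_re]; simp [H, Complex.mul_re]; ring
  · rw [Complex.ofReal_im]; simp [H, Complex.mul_im]; ring

lemma norm_perp (p : V) : ‖perp p‖ = ‖p‖ := by
  have h : ‖perp p‖ ^ 2 = ‖p‖ ^ 2 := by rw [nsq, nsq]; simp; ring
  exact (sq_eq_sq₀ (norm_nonneg _) (norm_nonneg _)).1 h

lemma lagrange (p x : V) : ‖H (perp p) x‖ ^ 2 + ‖H p x‖ ^ 2 = ‖p‖ ^ 2 * ‖x‖ ^ 2 := by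
  rw [nsq, nsq, nsqC, nsqC]
  simp [H, Complex.mul_re, Complex.mul_im]
  ring

lemma H_le (p x : V) : ‖H p x‖ ≤ ‖p‖ * ‖x‖ := by
  have h := lagrange p x
  have h2 : ‖H p x‖ ^ 2 ≤ (‖p‖ * ‖x‖) ^ 2 := by
    rw [mul_pow]; nlinarith [sq_nonneg ‖H (perp p) x‖]
  exact (sq_le_sq₀ (norm_nonneg _) (by positivity)).1 h2

lemma normsq_comb (p : V) (z w : ℂ) :
    ‖z • perp p + w • p‖ ^ 2 = ‖p‖ ^ 2 * (‖z‖ ^ 2 + ‖w‖ ^ 2) := by
  rw [nsq, nsq, nsqC, nsqC]
  simp [Complex.mul_re, Complex.mul_im]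
  ring

lemma decomp (p x : V) (hp : ‖p‖ = 1) : x = H (perp p) x • perp p + H p x • p := by
  have h1 : conj (p 0) * p 0 + conj (p 1) * p 1 = 1 := by
    have := H_self p; rw [hp] at this; simpa [H] using this
  ext i
  fin_cases i
  · simp [H]; linear_combination (-(x 0)) * h1
  · simp [H]; linear_combination (-(x 1)) * h1

lemma dist_sq_unit (p q : V) (hp : ‖p‖ = 1) (hq : ‖q‖ = 1) :
    ‖p - q‖ ^ 2 = 2 * (1 - H p q).re := by
  have h1 := nsq p
  have h2 := nsq q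
  rw [hp] at h1; rw [hq] at h2
  rw [nsq]
  simp [H, Complex.mul_re]
  linarith

end KallinCex
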