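import Pool.Agent.MP_44d275_an.Count

/-!
# Part 6: the counterexample to Kallin's question
-/

set_option autoImplicit false

open Set Metric Bornology Function ComplexConjugate

namespace KallinCex

lemma poly_differentiable (P : MvPolynomial (Fin 2) ℂ) :
    Differentiable ℂ (fun x : V => MvPolynomial.eval (fun m => x m) P) := by
  induction P using MvPolynomial.induction_on with
  | C a => simp only [MvPolynomial.eval_C]; exact differentiable_const a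
  | add p q hp hq => simp only [map_add]; exact hp.add hq
  | mul_X p i hp =>
    simp only [map_mul, MvPolynomial.eval_X]
    apply hp.mul
    exact (EuclideanSpace.proj i : V →L[ℂ] ℂ).differentiable

lemma sum_eq_normsq (ζ : Fin 2 → ℂ) (v : V) :
    ∑ m, ‖ζ m - v m‖ ^ 2 = ‖(WithLp.toLp 2 ζ : V) - v‖ ^ 2 := by
  rw [EuclideanSpace.norm_sq_eq]
  simp

theorem main
    (Hyp : ∀ (n k : ℕ) (c : Fin k → (Fin n → ℂ)) (r : Fin k → ℝ),
      (∀ i, 0 < r i) →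
      (∀ i j, i ≠ j →
        Disjoint {ζ : Fin n → ℂ | ∑ m, ‖ζ m - c i m‖ ^ 2 ≤ r i ^ 2}
                 {ζ : Fin n → ℂ | ∑ m, ‖ζ m - c j m‖ ^ 2 ≤ r j ^ 2}) →
      ∀ z : Fin n → ℂ,
        (∀ i, r i ^ 2 < ∑ m, ‖z m - c i m‖ ^ 2) →
        ∃ P : MvPolynomial (Fin n) ℂ,
          ∀ i, ∀ ζ : Fin n → ℂ, ∑ m, ‖ζ m - c i m‖ ^ 2 ≤ r i ^ 2 →
            ‖MvPolynomial.eval ζ P‖ < ‖MvPolynomial.eval z P‖) : False := by
  obtain ⟨D, n, hD, hnD, hn⟩ := exists_params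
  obtain ⟨δ, hδ⟩ : ∃ δ : ℝ, δ = 1 / D := ⟨_, rfl⟩
  have hDr : (1000 : ℝ) ≤ D := by exact_mod_cast hD
  have hDpos : (0 : ℝ) < D := by linarith
  have h0 : 0 < δ := by rw [hδ]; positivity
  have h1 : δ ≤ 1 / 1000 := by
    rw [hδ]; exact one_div_le_one_div_of_le (by norm_num) hDr
  have hδ2 : 0 < δ ^ 2 := by positivity
  have hδ3 : 0 < δ ^ 3 := by positivity
  have hδ4 : 0 < δ ^ 4 := by positivity
  have h4le : δ ^ 4 ≤ 1 / 1000000000000 := by
    calc δ ^ 4 ≤ (1 / 1000) ^ 4 := pow_le_pow_left₀ h0.le h1 4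
      _ = _ := by norm_num
  have h3le : δ ^ 3 ≤ 1 / 1000000000 := by
    calc δ ^ 3 ≤ (1 / 1000) ^ 3 := pow_le_pow_left₀ h0.le h1 3
      _ = _ := by norm_num
  obtain ⟨F, hF, hcov⟩ := exists_net (δ ^ 4 / 128) (by positivity)
  obtain ⟨a, ha1, ha2⟩ := greedy D n hD hnD hn δ hδ F hF F Finset.Subset.rfl
  set e := F.equivFin with he
  let C : Fin F.card → V := fun i => cen δ (e.symm i : V) (a (e.symm i : V))
  have hmem : ∀ i, ((e.symm i : F) : V) ∈ F := fun i => (e.symm i).2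
  have hCsq : ∀ i, ‖C i‖ ^ 2 = ‖a (e.symm i : V)‖ ^ 2 + (1 - 256 * δ ^ 4) ^ 2 := by
    intro i
    have := normsq_comb (e.symm i : V) (a (e.symm i : V)) ((1 - 256 * δ ^ 4 : ℝ) : ℂ)
    rw [hF.1 _ (hmem i), Complex.norm_real, Real.norm_of_nonneg (by linarith)] at this
    simpa [C, cen] using this
  obtain ⟨P, hP⟩ := Hyp 2 F.card (fun i m => C i m) (fun _ => 33 * δ ^ 3)
    (fun _ => by positivity)
    (by
      intro i j hij
      rw [Set.disjoint_left]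
      intro ζ h2 h3
      rw [Set.mem_ofPred_eq, sum_eq_normsq, sq_le_sq₀ (norm_nonneg _) (by positivity)] at h2 h3
      have hne : ((e.symm i : F) : V) ≠ ((e.symm j : F) : V) := by
        intro h
        exact hij (e.symm.injective (Subtype.ext h))
      have h4 := ha2 _ (hmem i) _ (hmem j) hne
      have h5 : ‖C i - C j‖ ≤ 66 * δ ^ 3 := by
        calc ‖C i - C j‖ = ‖((WithLp.toLp 2 ζ : V) - C j) - ((WithLp.toLp 2 ζ : V) - C i)‖ := by
              congr 1; abel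
          _ ≤ _ + _ := norm_sub_le _ _
          _ ≤ 33 * δ ^ 3 + 33 * δ ^ 3 := add_le_add h3 h2
          _ = _ := by ring
      exact absurd h5 (not_le.2 h4))
    0
    (by
      intro i
      rw [sum_eq_normsq]
      have : (WithLp.toLp 2 (0 : Fin 2 → ℂ) : V) - C i = - C i := by simp
      rw [this, norm_neg, hCsq]
      have k1 : (33 * δ ^ 3) ^ 2 < (1 / 2) ^ 2 := by
        apply pow_lt_pow_left₀ (by linarith) (by positivity) (by norm_num)
      have k2 : ((1 : ℝ) / 2) ^ 2 ≤ (1 - 256 * δ ^ 4) ^ 2 := by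
        apply pow_le_pow_left₀ (by norm_num) (by linarith)
      have k3 : 0 ≤ ‖a (e.symm i : V)‖ ^ 2 := by positivity
      linarith)
  -- the set `K`
  set K : Set V := {x | ∃ i, x ∈ closedBall (C i) (33 * δ ^ 3)} with hK
  obtain ⟨x0, hx0⟩ : ∃ x : V, ‖x‖ = 1 := ⟨!₂[1, 0], by simp [EuclideanSpace.norm_eq]⟩
  obtain ⟨p0, hp0, -⟩ := hcov x0 hx0
  have hCe : ∀ p (hp : p ∈ F), C (e ⟨p, hp⟩) = cen δ p (a p) := by
    intro p hp
    simp only [C, Equiv.symm_apply_apply]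
  refine max_principle (fun x : V => MvPolynomial.eval (fun m => x m) P) (poly_differentiable P)
    K (1 - 9 * δ ^ 4) (by linarith) (by linarith) ?_ ?_ (C (e ⟨p0, hp0⟩))
    ⟨_, mem_closedBall_self (by positivity)⟩ ?_
  · intro x hx
    obtain ⟨p, hpF, hpx⟩ := hcov x hx
    obtain ⟨Ω, φ, z₀, hΩ, hφ, hz₀, hz₀x, hfr⟩ := patch δ h0 h1 p x (hF.1 p hpF) hx hpx.le (a p)
      (ha1 p hpF).1 (ha1 p hpF).2
    refine ⟨Ω, φ, z₀, hΩ, hφ, hz₀, hz₀x, ?_⟩
    intro z hz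
    rcases hfr z hz with h | h
    · left
      refine ⟨e ⟨p, hpF⟩, ?_⟩
      rw [hCe]; exact h
    · right; exact h
  · rintro ζ ⟨i, hi⟩
    have h2 := hP i (fun m => ζ m) (by
      rw [sum_eq_normsq]
      rw [mem_closedBall, dist_eq_norm] at hi
      have : (WithLp.toLp 2 (fun m => ζ m) : V) = ζ := rfl
      rw [this]
      exact pow_le_pow_left₀ (norm_nonneg _) hi 2)
    exact h2
  · have h2 := hCsq (e ⟨p0, hp0⟩)
    have h3 : ‖a (e.symm (e ⟨p0, hp0⟩) : V)‖ ≤ 2 * δ ^ 2 := (ha1 _ (hmem _)).2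
    have h4 : ‖a (e.symm (e ⟨p0, hp0⟩) : V)‖ ^ 2 ≤ (2 * δ ^ 2) ^ 2 :=
      pow_le_pow_left₀ (norm_nonneg _) h3 2
    have h5 : (2 * δ ^ 2) ^ 2 = 4 * δ ^ 4 := by ring
    have h6 : (1 - 256 * δ ^ 4) ^ 2 = 1 - 512 * δ ^ 4 + 65536 * (δ ^ 4 * δ ^ 4) := by ring
    have h7 : δ ^ 4 * δ ^ 4 ≤ δ ^ 4 * (1 / 1000000000000) := by gcongr
    have h8 : ‖C (e ⟨p0, hp0⟩)‖ ^ 2 < 1 ^ 2 := by
      rw [h2]; linarith
    exact lt_of_pow_lt_pow_left₀ 2 (by norm_num) h8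

end KallinCex
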