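import Mathlib

/-!
# Disproof of polynomial convexity of finite unions of disjoint balls, part 1

The maximum principle argument: if every point `x` of the unit sphere of `V = ℂ²` lies on an analytic
curve whose boundary lies in `K` or in the smaller ball of radius `ρ₁ < 1`, then no entire function can
have `‖f ζ‖ < ‖f 0‖` for all `ζ ∈ K` (provided `K` contains a point of the open unit ball).
-/

set_option autoImplicit false

open Set Metric Bornology Function

namespace KallinCex

/-- The space `ℂ²` with the Hermitian norm. -/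
abbrev V := EuclideanSpace ℂ (Fin 2)

theorem max_principle (f : V → ℂ) (hf : Differentiable ℂ f) (K : Set V) (ρ₁ : ℝ)
    (hρ0 : 0 < ρ₁) (hρ1 : ρ₁ < 1)
    (hpatch : ∀ x : V, ‖x‖ = 1 → ∃ (Ω : Set ℂ) (φ : ℂ → V) (z₀ : ℂ),
      IsBounded Ω ∧ DiffContOnCl ℂ φ Ω ∧ z₀ ∈ closure Ω ∧ φ z₀ = x ∧
        ∀ z ∈ frontier Ω, φ z ∈ K ∨ ‖φ z‖ ≤ ρ₁)
    (hK : ∀ ζ ∈ K, ‖f ζ‖ < ‖f 0‖) (c : V) (hcK : c ∈ K) (hc1 : ‖c‖ < 1) : False := by
  classical
  -- maximum over the closed unit ball is attained on the sphere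
  obtain ⟨x, hx, hxmax⟩ := Complex.exists_mem_frontier_isMaxOn_norm (E := V) (F := ℂ) (f := f)
    (U := ball (0 : V) 1) isBounded_ball ⟨0, by simp⟩ hf.diffContOnCl
  rw [frontier_ball (0 : V) one_ne_zero, mem_sphere_zero_iff_norm] at hx
  rw [closure_ball (0 : V) one_ne_zero] at hxmax
  -- maximum over the smaller closed ball
  obtain ⟨y, hy, hymax⟩ := (isCompact_closedBall (0 : V) ρ₁).exists_isMaxOn
    ⟨0, by simp [hρ0.le]⟩ (hf.continuous.norm.continuousOn)
  rw [mem_closedBall_zero_iff] at hy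
  have h0y : ‖f 0‖ ≤ ‖f y‖ := hymax (by simp [hρ0.le] : (0 : V) ∈ closedBall (0 : V) ρ₁)
  -- the patch through `x`
  obtain ⟨Ω, φ, z₀, hΩb, hφ, hz₀, hφz₀, hfr⟩ := hpatch x hx
  have hcomp : DiffContOnCl ℂ (f ∘ φ) Ω := by
    refine ⟨fun z hz => ?_, hf.continuous.comp_continuousOn hφ.continuousOn⟩
    exact (hf (φ z)).comp_differentiableWithinAt z (hφ.differentiableOn z hz)
  have hxy : ‖f x‖ ≤ ‖f y‖ := by
    have h := Complex.norm_le_of_forall_mem_frontier_norm_le hΩb hcomp (C := ‖f y‖) (fun z hz => by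
      rcases hfr z hz with hz' | hz'
      · exact (hK _ hz').le.trans h0y
      · exact hymax (by simpa using hz')) hz₀
    simpa [hφz₀] using h
  -- hence `y` is an interior maximum, so `f` is constant on the open unit ball
  have hymem : y ∈ ball (0 : V) 1 := by
    rw [mem_ball_zero_iff]; exact lt_of_le_of_lt hy hρ1
  have hmax' : IsMaxOn (norm ∘ f) (ball (0 : V) 1) y := by
    intro z hz
    exact le_trans (hxmax (ball_subset_closedBall hz)) hxy
  have hconst := Complex.eqOn_of_isPreconnected_of_isMaxOn_norm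
    (convex_ball (0 : V) 1).isPreconnected isOpen_ball hf.differentiableOn hymem hmax'
  have h1 : f 0 = f y := hconst (by simp : (0 : V) ∈ ball (0 : V) 1)
  have h2 : f c = f y := hconst (by simpa using hc1 : c ∈ ball (0 : V) 1)
  have h3 := hK c hcK
  rw [h1, h2] at h3
  exact lt_irrefl _ h3

end KallinCex
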