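import Pool.Agent.MP_44d275_an.Geom

/-!
# Part 3: the analytic curve through a point of the sphere, held by a single small ball
-/

set_option autoImplicit false

open Set Metric Bornology Function ComplexConjugate

namespace KallinCex

/-- centre of the small ball attached to the net point `p` and the pole `a`. -/
noncomputable def cen (δ : ℝ) (p : V) (a : ℂ) : V :=
  a • perp p + ((1 - 256 * δ ^ 4 : ℝ) : ℂ) • p

/-- the meromorphic function giving the curve. -/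
noncomputable def W (δ : ℝ) (a z : ℂ) : ℂ :=
  ((1 - 256 * δ ^ 4 : ℝ) : ℂ) + ((256 * δ ^ 4 : ℝ) : ℂ) * (a / (a - z))

lemma W_sub (δ : ℝ) (hδ : 0 < δ) (a z : ℂ) :
    ‖W δ a z - ((1 - 256 * δ ^ 4 : ℝ) : ℂ)‖ = 256 * δ ^ 4 * (‖a‖ / ‖a - z‖) := by
  have : W δ a z - ((1 - 256 * δ ^ 4 : ℝ) : ℂ) = ((256 * δ ^ 4 : ℝ) : ℂ) * (a / (a - z)) := by
    simp [W]
  rw [this, norm_mul, norm_div, Complex.norm_real, Real.norm_of_nonneg (by positivity)]

lemma W_sub_one (δ : ℝ) (hδ : 0 < δ) (a z : ℂ) (hz : a - z ≠ 0) :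
    ‖W δ a z - 1‖ = 256 * δ ^ 4 * (‖z‖ / ‖a - z‖) := by
  have : W δ a z - 1 = ((256 * δ ^ 4 : ℝ) : ℂ) * (z / (a - z)) := by
    simp only [W]; push_cast; field_simp; ring
  rw [this, norm_mul, norm_div, Complex.norm_real, Real.norm_of_nonneg (by positivity)]

theorem patch (δ : ℝ) (h0 : 0 < δ) (h1 : δ ≤ 1 / 1000) (p x : V) (hp : ‖p‖ = 1) (hx : ‖x‖ = 1)
    (hnear : ‖1 - H p x‖ ≤ δ ^ 4 / 128) (a : ℂ) (ha1 : δ ^ 2 ≤ ‖a‖) (ha2 : ‖a‖ ≤ 2 * δ ^ 2) :
    ∃ (Ω : Set ℂ) (φ : ℂ → V) (z₀ : ℂ),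
      IsBounded Ω ∧ DiffContOnCl ℂ φ Ω ∧ z₀ ∈ closure Ω ∧ φ z₀ = x ∧
        ∀ z ∈ frontier Ω, φ z ∈ closedBall (cen δ p a) (33 * δ ^ 3) ∨ ‖φ z‖ ≤ 1 - 9 * δ ^ 4 := by
  set z₀ : ℂ := H (perp p) x with hz₀
  set w₀ : ℂ := H p x with hw₀
  have hδ2 : 0 < δ ^ 2 := by positivity
  have hδ3 : 0 < δ ^ 3 := by positivity
  have hδ4 : 0 < δ ^ 4 := by positivity
  have h4le : δ ^ 4 ≤ 1 / 1000000000000 := by
    calc δ ^ 4 ≤ (1 / 1000) ^ 4 := pow_le_pow_left₀ h0.le h1 4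
      _ = _ := by norm_num
  have h43 : δ ^ 4 ≤ δ ^ 3 / 1000 := by nlinarith
  have h32 : δ ^ 3 ≤ δ ^ 2 / 1000 := by nlinarith
  have hz0sq : ‖z₀‖ ^ 2 + ‖w₀‖ ^ 2 = 1 := by
    have := lagrange p x
    rw [hp, hx] at this
    simpa using this
  have hw0lb : 1 - δ ^ 4 / 128 ≤ ‖w₀‖ := by
    have h : ‖(1 : ℂ)‖ ≤ ‖1 - w₀‖ + ‖w₀‖ := by
      calc ‖(1 : ℂ)‖ = ‖(1 - w₀) + w₀‖ := by ring_nf
        _ ≤ _ := norm_add_le _ _
    rw [norm_one] at h
    linarith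
  have hz0 : ‖z₀‖ ≤ δ ^ 2 / 8 := by
    have : ‖z₀‖ ^ 2 ≤ (δ ^ 2 / 8) ^ 2 := by nlinarith
    exact (sq_le_sq₀ (norm_nonneg _) (by positivity)).1 this
  have haz0 : 7 / 8 * δ ^ 2 ≤ ‖a - z₀‖ := by
    have := norm_sub_norm_le a z₀
    linarith
  have haz0ne : a - z₀ ≠ 0 := by
    intro h; rw [h, norm_zero] at haz0; nlinarith
  -- the translation
  set τ : ℂ := w₀ - W δ a z₀ with hτ
  have hτle : ‖τ‖ ≤ 256 / 5 * δ ^ 4 := by
    have e1 : ‖W δ a z₀ - 1‖ ≤ 256 / 7 * δ ^ 4 := by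
      rw [W_sub_one δ h0 a z₀ haz0ne]
      have : ‖z₀‖ / ‖a - z₀‖ ≤ 1 / 7 := by
        rw [div_le_div_iff₀ (by linarith) (by norm_num)]
        nlinarith
      nlinarith
    have e2 : ‖τ‖ ≤ ‖1 - w₀‖ + ‖W δ a z₀ - 1‖ := by
      have : τ = -(1 - w₀) - (W δ a z₀ - 1) := by rw [hτ]; ring
      rw [this]
      calc ‖-(1 - w₀) - (W δ a z₀ - 1)‖ ≤ ‖-(1 - w₀)‖ + ‖W δ a z₀ - 1‖ := norm_sub_le _ _
        _ = _ := by rw [norm_neg]
    nlinarith
  set φ : ℂ → V := fun z => z • perp p + (W δ a z + τ) • p with hφdef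
  set Ω : Set ℂ := ball (0 : ℂ) (18 * δ ^ 2) ∩ (closedBall a (20 * δ ^ 3))ᶜ with hΩ
  have hΩopen : IsOpen Ω := isOpen_ball.inter isClosed_closedBall.isOpen_compl
  have hclos : closure Ω ⊆ closedBall (0 : ℂ) (18 * δ ^ 2) ∩ {z | 20 * δ ^ 3 ≤ dist z a} := by
    apply closure_minimal
    · rintro z ⟨hz1, hz2⟩
      refine ⟨ball_subset_closedBall hz1, ?_⟩
      simp only [mem_compl_iff, mem_closedBall, not_le] at hz2
      exact hz2.le
    · exact isClosed_closedBall.inter (isClosed_le continuous_const (continuous_id.dist continuous_const))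
  have hne : ∀ z ∈ closure Ω, a - z ≠ 0 := by
    intro z hz h
    have := (hclos hz).2
    simp only [mem_ofPred_eq] at this
    rw [sub_eq_zero] at h
    rw [h, dist_self] at this
    linarith
  refine ⟨Ω, φ, z₀, ?_, ?_, ?_, ?_, ?_⟩
  · exact isBounded_ball.subset inter_subset_left
  · apply DifferentiableOn.diffContOnCl
    intro z hz
    apply DifferentiableAt.differentiableWithinAt
    have hW : DifferentiableAt ℂ (W δ a) z := by
      unfold W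
      have := hne z hz
      fun_prop (disch := assumption)
    exact (differentiableAt_id.smul_const (perp p)).add ((hW.add_const τ).smul_const p)
  · apply subset_closure
    refine ⟨?_, ?_⟩
    · rw [mem_ball_zero_iff]; linarith
    · simp only [mem_compl_iff, mem_closedBall, not_le, dist_eq_norm]
      rw [norm_sub_rev]; linarith
  · have hd := decomp p x hp
    rw [hφdef]
    simp only
    rw [hτ, add_sub_cancel]
    exact hd.symm
  · intro z hz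
    have hzc : z ∈ closure Ω := frontier_subset_closure hz
    have hzn : z ∉ Ω := by
      have := hz.2
      rwa [hΩopen.interior_eq] at this
    obtain ⟨hz1, hz2⟩ := hclos hzc
    simp only [mem_ofPred_eq, dist_eq_norm] at hz2
    rw [mem_closedBall_zero_iff] at hz1
    by_cases hin : ‖z‖ < 18 * δ ^ 2
    · -- inner circle: in the small ball
      left
      have hza : ‖z - a‖ ≤ 20 * δ ^ 3 := by
        by_contra hcon
        apply hzn
        refine ⟨by rwa [mem_ball_zero_iff], ?_⟩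
        simp only [mem_compl_iff, mem_closedBall, dist_eq_norm]
        exact hcon
      have heq : ‖z - a‖ = 20 * δ ^ 3 := le_antisymm hza hz2
      rw [mem_closedBall, dist_eq_norm]
      have e1 : φ z - cen δ p a = (z - a) • perp p +
          ((W δ a z - ((1 - 256 * δ ^ 4 : ℝ) : ℂ)) + τ) • p := by
        simp only [hφdef, cen]
        module
      have e2 : ‖(W δ a z - ((1 - 256 * δ ^ 4 : ℝ) : ℂ)) + τ‖ ≤ 26 * δ ^ 3 := by
        have : ‖W δ a z - ((1 - 256 * δ ^ 4 : ℝ) : ℂ)‖ ≤ 128 / 5 * δ ^ 3 := by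
          rw [W_sub δ h0, norm_sub_rev, heq]
          rw [mul_div_assoc', div_le_iff₀ (by positivity)]
          nlinarith [mul_le_mul_of_nonneg_left ha2 (by positivity : (0:ℝ) ≤ 256 * δ ^ 4)]
        calc _ ≤ ‖W δ a z - ((1 - 256 * δ ^ 4 : ℝ) : ℂ)‖ + ‖τ‖ := norm_add_le _ _
          _ ≤ 128 / 5 * δ ^ 3 + 256 / 5 * δ ^ 4 := add_le_add this hτle
          _ ≤ _ := by linarith
      have e3 : ‖φ z - cen δ p a‖ ^ 2 ≤ (33 * δ ^ 3) ^ 2 := by
        rw [e1, normsq_comb, hp, heq]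
        have : ‖(W δ a z - ((1 - 256 * δ ^ 4 : ℝ) : ℂ)) + τ‖ ^ 2 ≤ (26 * δ ^ 3) ^ 2 :=
          pow_le_pow_left₀ (norm_nonneg _) e2 2
        nlinarith [sq_nonneg (δ ^ 3)]
      exact (sq_le_sq₀ (norm_nonneg _) (by positivity)).1 e3
    · -- outer circle: inside the unit ball
      right
      have heq : ‖z‖ = 18 * δ ^ 2 := le_antisymm hz1 (not_lt.1 hin)
      have haz : 16 * δ ^ 2 ≤ ‖a - z‖ := by
        have := norm_sub_norm_le z a
        rw [norm_sub_rev] at this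
        linarith
      have e1 : ‖W δ a z - ((1 - 256 * δ ^ 4 : ℝ) : ℂ)‖ ≤ 32 * δ ^ 4 := by
        rw [W_sub δ h0]
        have : ‖a‖ / ‖a - z‖ ≤ 1 / 8 := by
          rw [div_le_div_iff₀ (by linarith) (by norm_num)]
          linarith
        nlinarith
      have e2 : ‖W δ a z + τ‖ ≤ 1 - 864 / 5 * δ ^ 4 := by
        have : W δ a z + τ = ((1 - 256 * δ ^ 4 : ℝ) : ℂ) +
            ((W δ a z - ((1 - 256 * δ ^ 4 : ℝ) : ℂ)) + τ) := by ring
        rw [this]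
        calc _ ≤ ‖((1 - 256 * δ ^ 4 : ℝ) : ℂ)‖ +
              ‖(W δ a z - ((1 - 256 * δ ^ 4 : ℝ) : ℂ)) + τ‖ := norm_add_le _ _
          _ ≤ ‖((1 - 256 * δ ^ 4 : ℝ) : ℂ)‖ +
              (‖W δ a z - ((1 - 256 * δ ^ 4 : ℝ) : ℂ)‖ + ‖τ‖) := by
                gcongr; exact norm_add_le _ _
          _ = (1 - 256 * δ ^ 4) + (‖W δ a z - ((1 - 256 * δ ^ 4 : ℝ) : ℂ)‖ + ‖τ‖) := by
                rw [Complex.norm_real, Real.norm_of_nonneg]; linarith
          _ ≤ _ := by linarith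
      have e3 : ‖φ z‖ ^ 2 ≤ (1 - 9 * δ ^ 4) ^ 2 := by
        have e4 : φ z = z • perp p + (W δ a z + τ) • p := rfl
        rw [e4, normsq_comb, hp, heq]
        have e5 : ‖W δ a z + τ‖ ^ 2 ≤ (1 - 864 / 5 * δ ^ 4) ^ 2 :=
          pow_le_pow_left₀ (norm_nonneg _) e2 2
        nlinarith
      exact (sq_le_sq₀ (norm_nonneg _) (by linarith)).1 e3

end KallinCex
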